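import Mathlib

/-!
# Abelian varieties with split totally multiplicative reduction over `p`-adic fields

They are described by their uniformization (Tate, Mumford, Raynaud): `A(K̄) = T(K̄) / Λ`, where
`T = G_m^g` and `Λ` is a lattice in `T(K)` that satisfies Riemann's period relations; the
endomorphisms of `A` are those of the algebraic group `T` that preserve `Λ`.
-/

set_option autoImplicit false

open scoped TensorProduct

namespace Run7.h592.TT

noncomputable section

/-! ## Tate modules -/

section tate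

variable (p : ℕ) [Fact p.Prime] (M : AddCommGrpCat.{0})

/-- The sequences `a` in `M` with `a 0 = 0` and `p • a (n + 1) = a n`. -/
def tateSub (p : ℕ) (M : AddCommGrpCat.{0}) : AddSubgroup (ℕ → M) where
  carrier := {a | a 0 = 0 ∧ ∀ n, p • a (n + 1) = a n}
  add_mem' := by
    rintro a b ⟨ha, ha'⟩ ⟨hb, hb'⟩
    refine ⟨by simp [ha, hb], fun n => ?_⟩
    rw [Pi.add_apply, smul_add, ha', hb', Pi.add_apply]
  zero_mem' := ⟨rfl, fun n => by simp⟩
  neg_mem' := by
    rintro a ⟨ha, ha'⟩
    refine ⟨by simp [ha], fun n => ?_⟩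
    rw [Pi.neg_apply, smul_neg, ha', Pi.neg_apply]

/-- The `p`-adic Tate module `T_p(M)` of an abelian group `M`. -/
def Tate (p : ℕ) (M : AddCommGrpCat.{0}) : AddCommGrpCat.{0} := AddCommGrpCat.of (tateSub p M)

variable {p M}

/-- The terms of an element of `T_p(M)`. -/
def lev {p : ℕ} {M : AddCommGrpCat.{0}} (a : Tate p M) (n : ℕ) : M :=
  a.1 n

/-- The element of `T_p(M)` with given terms. -/
def mkT {p : ℕ} {M : AddCommGrpCat.{0}} (a : ℕ → M) (h0 : a 0 = 0)
    (h : ∀ n, p • a (n + 1) = a n) : Tate p M :=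
  (⟨a, h0, h⟩ : tateSub p M)

theorem ext_lev {a b : Tate p M} (h : ∀ n, lev a n = lev b n) : a = b :=
  Subtype.ext (funext h)

theorem lev_mk (a : ℕ → M) (h0 : a 0 = 0) (h : ∀ n, p • a (n + 1) = a n) (n : ℕ) :
    lev (mkT a h0 h) n = a n := rfl

theorem lev_add (a b : Tate p M) (n : ℕ) : lev (a + b) n = lev a n + lev b n := rfl

theorem lev_zero (n : ℕ) : lev (0 : Tate p M) n = 0 := rfl

theorem lev_first (a : Tate p M) : lev a 0 = 0 :=
  a.2.1

theorem lev_next (a : Tate p M) (n : ℕ) : p • lev a (n + 1) = lev a n :=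
  a.2.2 n

theorem pow_smul_eq (a : Tate p M) (k n : ℕ) : p ^ k • lev a (n + k) = lev a n := by
  induction k generalizing n with
  | zero => simp
  | succ k ih =>
    rw [pow_succ, mul_smul, show n + (k + 1) = (n + k) + 1 by omega, lev_next, ih]

theorem pow_smul_zero (a : Tate p M) (n : ℕ) : p ^ n • lev a n = 0 := by
  have h := pow_smul_eq a n 0
  rw [Nat.zero_add] at h
  rw [h]
  exact lev_first a

/-- Multiples of `a n` depend only on the residue class modulo `p ^ n`. -/
theorem smul_congr (a : Tate p M) (n : ℕ) {k l : ℕ} (h : k ≡ l [MOD p ^ n]) :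
    k • lev a n = l • lev a n := by
  rw [← Nat.mod_add_div k (p ^ n), ← Nat.mod_add_div l (p ^ n), show k % p ^ n = l % p ^ n from h,
    add_smul, add_smul, mul_comm, mul_smul, pow_smul_zero, mul_comm (p ^ n) (l / p ^ n), mul_smul,
    pow_smul_zero, smul_zero, smul_zero]

/-- `z.appr n` is the natural number below `p ^ n` that is congruent to `z`. -/
theorem appr_modEq (z : ℤ_[p]) (n k : ℕ) (h : PadicInt.toZModPow n z = (k : ZMod (p ^ n))) :
    z.appr n ≡ k [MOD p ^ n] := by
  have h1 : PadicInt.toZModPow n z = ((z.appr n : ℕ) : ZMod (p ^ n)) := by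
    have h2 := PadicInt.appr_spec n z
    rw [← PadicInt.ker_toZModPow, RingHom.mem_ker, map_sub, sub_eq_zero, map_natCast] at h2
    exact h2
  rw [h1] at h
  exact (ZMod.natCast_eq_natCast_iff _ _ _).mp h

theorem toZModPow_appr (z : ℤ_[p]) (n : ℕ) :
    PadicInt.toZModPow n z = ((z.appr n : ℕ) : ZMod (p ^ n)) := by
  have h2 := PadicInt.appr_spec n z
  rw [← PadicInt.ker_toZModPow, RingHom.mem_ker, map_sub, sub_eq_zero, map_natCast] at h2
  exact h2

theorem appr_succ_modEq (z : ℤ_[p]) (n : ℕ) : z.appr (n + 1) ≡ z.appr n [MOD p ^ n] := by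
  refine Nat.ModEq.symm (appr_modEq z n _ ?_)
  rw [← PadicInt.cast_toZModPow n (n + 1) (Nat.le_succ n) z, toZModPow_appr z (n + 1)]
  rw [ZMod.cast_natCast (pow_dvd_pow p (Nat.le_succ n))]

theorem smul_first (z : ℤ_[p]) (a : Tate p M) : z.appr 0 • lev a 0 = 0 := by
  rw [lev_first, smul_zero]

theorem smul_next (z : ℤ_[p]) (a : Tate p M) (n : ℕ) :
    p • z.appr (n + 1) • lev a (n + 1) = z.appr n • lev a n := by
  rw [smul_comm, lev_next]
  exact smul_congr a n (appr_succ_modEq z n)

/-- A `p`-adic integer `z` acts on `a n` as any integer congruent to `z` modulo `p ^ n`. -/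
instance : SMul ℤ_[p] (Tate p M) where
  smul z a := mkT (fun n => z.appr n • lev a n) (smul_first z a) (smul_next z a)

theorem smul_val (z : ℤ_[p]) (a : Tate p M) (n : ℕ) : lev (z • a) n = z.appr n • lev a n := rfl

instance : Module ℤ_[p] (Tate p M) where
  one_smul a := by
    refine ext_lev fun n => ?_
    rw [smul_val]
    conv_rhs => rw [← one_smul ℕ (lev a n)]
    exact smul_congr a n (appr_modEq 1 n 1 (by simp))
  mul_smul y z a := by
    refine ext_lev fun n => ?_
    rw [smul_val, smul_val, smul_val, ← mul_smul]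
    exact smul_congr a n (appr_modEq (y * z) n _ (by
      rw [map_mul, toZModPow_appr, toZModPow_appr z]
      push_cast
      rfl))
  smul_zero z := by
    refine ext_lev fun n => ?_
    rw [smul_val, lev_zero]
    exact smul_zero _
  smul_add z a b := by
    refine ext_lev fun n => ?_
    rw [smul_val]
    exact smul_add _ _ _
  add_smul y z a := by
    refine ext_lev fun n => ?_
    have h : (y + z).appr n • lev a n = (y.appr n + z.appr n) • lev a n :=
      smul_congr a n (appr_modEq (y + z) n _ (by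
        rw [map_add, toZModPow_appr, toZModPow_appr z]
        push_cast
        rfl))
    rw [smul_val, h, add_smul]
    rfl
  zero_smul a := by
    refine ext_lev fun n => ?_
    rw [smul_val]
    have h : (0 : ℤ_[p]).appr n • lev a n = 0 • lev a n := smul_congr a n (appr_modEq 0 n 0 (by simp))
    rw [h, zero_smul]
    rfl

/-- The map of Tate modules induced by a homomorphism of groups. -/
def tateMap {N : AddCommGrpCat.{0}} (f : M →+ N) : Tate p M →ₗ[ℤ_[p]] Tate p N where
  toFun a := mkT (fun n => f (lev a n)) (by rw [lev_first, map_zero])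
    (fun n => by rw [← map_nsmul, lev_next])
  map_add' a b := ext_lev fun n => map_add f _ _
  map_smul' z a := ext_lev fun n => map_nsmul f _ _

theorem tateMap_lev {N : AddCommGrpCat.{0}} (f : M →+ N) (a : Tate p M) (n : ℕ) :
    lev (tateMap f a) n = f (lev a n) := rfl

end tate

/-! ## Totally degenerate abelian varieties -/

section av

variable (p : ℕ) [Fact p.Prime] (K : Type) [Field K] [Algebra ℚ_[p] K] (g : ℕ)

/-- An abelian variety `A` of dimension `g` with split totally multiplicative reduction over a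
finite extension `K` of `ℚ_p`, with a polarization, given by its uniformization `G_m^g / Λ`.
The rows of `q` generate `Λ`; `pol` is the matrix of the polarization, as a map from `Λ` to the
group of the characters of `G_m^g`. Riemann's relations: the pairing
`(i, j) ↦ ∏ k, q i k ^ pol k j` on `Λ` is symmetric, and its absolute value is positive definite. -/
structure TotDeg where
  /-- the periods -/
  q : Fin g → Fin g → Kˣ
  /-- the polarization -/
  pol : Matrix (Fin g) (Fin g) ℤ
  symm : ∀ i j, ∏ k, q i k ^ pol k j = ∏ k, q j k ^ pol k i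
  pos : ∀ m : Fin g → ℤ, m ≠ 0 →
    spectralNorm ℚ_[p] K ((∏ i, ∏ j, ∏ k, q i k ^ (pol k j * m i * m j) : Kˣ) : K) < 1

variable {p K g}

namespace TotDeg

/-- `T(K̄)` for the torus `T = G_m^g`, written additively. -/
def Torus (_ : TotDeg p K g) : AddCommGrpCat.{0} :=
  AddCommGrpCat.of (Fin g → Additive (AlgebraicClosure K)ˣ)

/-- The `i`-th row of the matrix of the periods, as an element of `T(K̄)`. -/
def row (A : TotDeg p K g) (i : Fin g) : A.Torus :=
  (fun k => Additive.ofMul (Units.map (algebraMap K (AlgebraicClosure K)) (A.q i k)) :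
    Fin g → Additive (AlgebraicClosure K)ˣ)

/-- The lattice `Λ ⊆ T(K) ⊆ T(K̄)`, generated by the rows of the matrix `q`. -/
def lattice (A : TotDeg p K g) : AddSubgroup A.Torus := AddSubgroup.closure (Set.range A.row)

/-- The group `A(K̄) = T(K̄) / Λ`. -/
def Pts (A : TotDeg p K g) : AddCommGrpCat.{0} := AddCommGrpCat.of (A.Torus ⧸ A.lattice)

/-- The projection `T(K̄) → A(K̄)`. -/
def proj (A : TotDeg p K g) (x : A.Torus) : A.Pts := (x : A.Torus ⧸ A.lattice)

/-- The action of `σ ∈ G_K` on `T(K̄)`. -/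
def galTorus (A : TotDeg p K g) (σ : AlgebraicClosure K ≃ₐ[K] AlgebraicClosure K) :
    A.Torus →+ A.Torus :=
  (AddMonoidHom.compLeft (MonoidHom.toAdditive (Units.map σ)) (Fin g) :
    (Fin g → Additive (AlgebraicClosure K)ˣ) →+ (Fin g → Additive (AlgebraicClosure K)ˣ))

theorem gal_lattice (A : TotDeg p K g) (σ : AlgebraicClosure K ≃ₐ[K] AlgebraicClosure K) :
    A.lattice ≤ A.lattice.comap (A.galTorus σ) := by
  refine (AddSubgroup.closure_le _).mpr ?_
  rintro _ ⟨i, rfl⟩
  have h : A.galTorus σ (A.row i) = A.row i := by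
    funext k
    refine Units.ext ?_
    exact σ.commutes _
  rw [SetLike.mem_coe, AddSubgroup.mem_comap, h]
  exact AddSubgroup.subset_closure ⟨i, rfl⟩

/-- The action of `σ ∈ G_K` on `A(K̄)`. -/
def gal (A : TotDeg p K g) (σ : AlgebraicClosure K ≃ₐ[K] AlgebraicClosure K) : A.Pts →+ A.Pts :=
  QuotientAddGroup.map A.lattice A.lattice (A.galTorus σ) (A.gal_lattice σ)

/-- The endomorphism of the torus defined by the integral matrix `α`. These are all endomorphisms
of the algebraic group `G_m^g`. -/
def torusEnd (A : TotDeg p K g) (α : Matrix (Fin g) (Fin g) ℤ) (x : A.Torus) : A.Torus :=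
  (fun i => ∑ j, α i j • x j : Fin g → Additive (AlgebraicClosure K)ˣ)

/-- `End(A)`: the endomorphisms of `A(K̄)` induced by endomorphisms of the algebraic group `T`. -/
def EndA (A : TotDeg p K g) : Set (A.Pts →+ A.Pts) :=
  {f | ∃ α : Matrix (Fin g) (Fin g) ℤ, ∀ x, f (A.proj x) = A.proj (A.torusEnd α x)}

/-- `V_p(A) = T_p(A) ⊗ ℚ_p`. -/
def V (A : TotDeg p K g) : ModuleCat.{0} ℚ_[p] :=
  ModuleCat.of ℚ_[p] (ℚ_[p] ⊗[ℤ_[p]] Tate p A.Pts)

/-- The endomorphism of `V_p(A)` induced by an endomorphism of the group `A(K̄)`. -/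
def onV (A : TotDeg p K g) (f : A.Pts →+ A.Pts) : Module.End ℚ_[p] A.V :=
  (tateMap f).baseChange ℚ_[p]

/-- `F` belongs to the image of the natural map `End(A) ⊗ ℚ_p → End(V_p(A))`: it is a linear
combination of endomorphisms of `V_p(A)` induced by `End(A)`. -/
def InImage (A : TotDeg p K g) (F : Module.End ℚ_[p] A.V) : Prop :=
  F ∈ Submodule.span ℚ_[p] (A.onV '' A.EndA)

/-- `F` belongs to `End_{G_K}(V_p(A))`. -/
def IsEquivariant (A : TotDeg p K g) (F : Module.End ℚ_[p] A.V) : Prop :=
  ∀ σ : AlgebraicClosure K ≃ₐ[K] AlgebraicClosure K, F * A.onV (A.gal σ) = A.onV (A.gal σ) * F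

end TotDeg

end av

end

end Run7.h592.TT
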