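import Pool.Agent.Run7.h592.TT.Phi

/-! The endomorphisms of the surface and the proof of the theorem. -/

set_option autoImplicit false

open scoped TensorProduct

namespace Run7.h592.TT

noncomputable section

section gen

variable {p : ℕ} [Fact p.Prime] {K : Type} [Field K] [Algebra ℚ_[p] K] {g : ℕ}

theorem TotDeg.onV_zero (A : TotDeg p K g) : A.onV 0 = 0 := by
  have h : (tateMap (0 : A.Pts →+ A.Pts) : Tate p A.Pts →ₗ[ℤ_[p]] _) = 0 :=
    LinearMap.ext fun t => ext_lev fun n => rfl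
  change (tateMap (0 : A.Pts →+ A.Pts)).baseChange ℚ_[p] = 0
  rw [h, LinearMap.baseChange_zero]

theorem TotDeg.onV_add (A : TotDeg p K g) (f f' : A.Pts →+ A.Pts) :
    A.onV (f + f') = A.onV f + A.onV f' := by
  have h : (tateMap (f + f') : Tate p A.Pts →ₗ[ℤ_[p]] _) = tateMap f + tateMap f' :=
    LinearMap.ext fun t => ext_lev fun n => rfl
  change (tateMap (f + f')).baseChange ℚ_[p] = _
  rw [h, LinearMap.baseChange_add]
  rfl

theorem TotDeg.onV_id (A : TotDeg p K g) : A.onV (AddMonoidHom.id A.Pts) = 1 := by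
  have h : (tateMap (AddMonoidHom.id A.Pts) : Tate p A.Pts →ₗ[ℤ_[p]] _) = LinearMap.id :=
    LinearMap.ext fun t => ext_lev fun n => rfl
  change (tateMap (AddMonoidHom.id A.Pts)).baseChange ℚ_[p] = 1
  rw [h]
  exact LinearMap.baseChange_id

theorem TotDeg.onV_zsmul (A : TotDeg p K g) (n : ℤ) (f : A.Pts →+ A.Pts) :
    A.onV (n • f) = n • A.onV f :=
  map_zsmul ({ toFun := A.onV, map_zero' := A.onV_zero, map_add' := A.onV_add } :
    (A.Pts →+ A.Pts) →+ Module.End ℚ_[p] A.V) n f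

theorem TotDeg.inImage_scalar (A : TotDeg p K g)
    (h : ∀ f ∈ A.EndA, ∃ n : ℤ, f = n • AddMonoidHom.id A.Pts) (F : Module.End ℚ_[p] A.V)
    (hF : A.InImage F) : ∃ c : ℚ_[p], F = c • 1 := by
  refine Submodule.span_induction (p := fun F _ => ∃ c : ℚ_[p], F = c • 1) ?_ ?_ ?_ ?_ hF
  · rintro _ ⟨f, hf, rfl⟩
    obtain ⟨n, hn⟩ := h f hf
    exact ⟨n, by rw [hn, A.onV_zsmul, A.onV_id, Int.cast_smul_eq_zsmul]⟩
  · exact ⟨0, by rw [zero_smul]⟩
  · rintro _ _ _ _ ⟨c, rfl⟩ ⟨d, rfl⟩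
    exact ⟨c + d, by rw [add_smul]⟩
  · rintro d _ _ ⟨c, rfl⟩
    exact ⟨d * c, by rw [mul_smul]⟩

variable {M : AddCommGrpCat.{0}}

theorem tate_torsion {z : ℤ_[p]} (hz : z ≠ 0) {t : Tate p M} (h : z • t = 0) : t = 0 := by
  rw [PadicInt.unitCoeff_spec hz, mul_smul] at h
  have h1 : ((p : ℤ_[p]) ^ z.valuation) • t = 0 := by
    have h2 := congrArg (fun s => (((PadicInt.unitCoeff hz)⁻¹ : ℤ_[p]ˣ) : ℤ_[p]) • s) h
    simpa [smul_smul] using h2
  refine ext_lev fun n => ?_
  have h3 : ((p ^ z.valuation : ℕ) : ℤ_[p]) • t = 0 := by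
    rw [Nat.cast_pow]
    exact h1
  rw [Nat.cast_smul_eq_nsmul] at h3
  have h4 := congrArg (fun s : Tate p M => lev s (n + z.valuation)) h3
  have h5 : p ^ z.valuation • lev t (n + z.valuation) = 0 := h4
  rw [pow_smul_eq] at h5
  exact h5

theorem tate_inj {t : Tate p M} (h : (1 : ℚ_[p]) ⊗ₜ[ℤ_[p]] t = 0) : t = 0 := by
  have h1 : IsLocalizedModule (nonZeroDivisors ℤ_[p]) (TensorProduct.mk ℤ_[p] ℚ_[p]
      (Tate p M) 1) :=
    (isLocalizedModule_iff_isBaseChange (nonZeroDivisors ℤ_[p]) ℚ_[p] _).mpr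
      (TensorProduct.isBaseChange ℤ_[p] (Tate p M) ℚ_[p])
  have h2 : (TensorProduct.mk ℤ_[p] ℚ_[p] (Tate p M) 1) t = 0 := h
  obtain ⟨s, hs⟩ := (IsLocalizedModule.eq_zero_iff (nonZeroDivisors ℤ_[p]) _).mp h2
  exact tate_torsion (nonZeroDivisors.ne_zero s.2) hs

/-- Two elements of the Tate module which are proportional over `ℚ_p`. -/
theorem tate_prop {t t' : Tate p M} {c : ℚ_[p]}
    (h : (1 : ℚ_[p]) ⊗ₜ[ℤ_[p]] t' = c • ((1 : ℚ_[p]) ⊗ₜ[ℤ_[p]] t)) :
    ∃ r s : ℤ_[p], s ≠ 0 ∧ s • t' = r • t := by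
  obtain ⟨r, s, hs, hc⟩ := IsFractionRing.div_surjective (A := ℤ_[p]) c
  have hs0 : s ≠ 0 := nonZeroDivisors.ne_zero hs
  have hs1 : algebraMap ℤ_[p] ℚ_[p] s ≠ 0 := by
    intro h0
    exact hs0 (FaithfulSMul.algebraMap_injective ℤ_[p] ℚ_[p] (by rw [h0, map_zero]))
  refine ⟨r, s, hs0, ?_⟩
  rw [← sub_eq_zero]
  refine tate_inj ?_
  rw [TensorProduct.tmul_sub, TensorProduct.tmul_smul, TensorProduct.tmul_smul, h, sub_eq_zero,
    ← hc, ← algebraMap_smul ℚ_[p] s, ← algebraMap_smul ℚ_[p] r, smul_smul, mul_div_cancel₀ _ hs1]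

theorem appr_zero_all {s : ℤ_[p]} (h : ∀ n, p ^ n ∣ s.appr n) : s = 0 := by
  by_contra h0
  have h1 : ∀ n, s ∈ (Ideal.span {(p : ℤ_[p]) ^ n} : Ideal ℤ_[p]) := by
    intro n
    have h2 := PadicInt.appr_spec n s
    obtain ⟨k, hk⟩ := h n
    have h3 : ((s.appr n : ℕ) : ℤ_[p]) ∈ (Ideal.span {(p : ℤ_[p]) ^ n} : Ideal ℤ_[p]) := by
      rw [hk, Ideal.mem_span_singleton]
      push_cast
      exact dvd_mul_right _ _
    have h4 := Ideal.add_mem _ h2 h3
    rwa [sub_add_cancel] at h4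
  have h5 := (PadicInt.mem_span_pow_iff_le_valuation s h0 (s.valuation + 1)).mp (h1 _)
  omega

end gen

section surf

variable {p : ℕ} [Fact p.Prime] {K : Type} [Field K] [Algebra ℚ_[p] K] {a : ℤ_[p]}

/-- The endomorphisms of the surface are the integers. -/
theorem end_scalar (ha : ∀ r s : ℤ, (r : ℤ_[p]) + s * a = 0 → r = 0 ∧ s = 0) :
    ∀ f ∈ (surf p K a).EndA, ∃ n : ℤ, f = n • AddMonoidHom.id (surf p K a).Pts := by
  rintro f ⟨α, hα⟩
  have hT : ∀ x, (surf p K a).torusEnd α (tor p K a x) =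
      tor p K a ![x 0 ^ α 0 0 * x 1 ^ α 0 1, x 0 ^ α 1 0 * x 1 ^ α 1 1] := by
    intro x
    refine funext fun i => ?_
    refine (Fin.sum_univ_two (fun j => α i j • Additive.ofMul (x j))).trans ?_
    fin_cases i <;> rfl
  have hf : ∀ x, f (pj p K a x) =
      pj p K a ![x 0 ^ α 0 0 * x 1 ^ α 0 1, x 0 ^ α 1 0 * x 1 ^ α 1 1] := by
    intro x
    rw [pj, hα, hT]
    rfl
  have h1 := hf (lv p K a 1 0)
  rw [pj_lv, map_zero] at h1
  obtain ⟨m, n, hmn⟩ := (pj_eq_zero p K a).mp h1.symm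
  have hx0 : lv p K a 1 0 0 = pw p K := by simp [lv, uw_zero]
  have hx1 : lv p K a 1 0 1 = uw p K 1 := by simp [lv]
  rw [hx0, hx1, ← uw_int, ← uw_int, mul_one, mul_one] at hmn
  have h3 : pw p K ^ (α 0 0) * uw p K (α 0 1) = pw p K ^ m * uw p K n := congrFun hmn 0
  have h4 : pw p K ^ (α 1 0) * uw p K (α 1 1) = pw p K ^ n * uw p K (m + a * n) :=
    congrFun hmn 1
  obtain ⟨h5, h6⟩ := pw_uw_inj p K h3
  obtain ⟨h7, h8⟩ := pw_uw_inj p K h4
  have h6' : α 0 1 = n := by exact_mod_cast h6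
  obtain ⟨h9, h10⟩ := ha (m - α 1 1) n (by
    push_cast
    rw [h8]
    ring)
  refine ⟨m, ?_⟩
  refine AddMonoidHom.ext fun β => ?_
  obtain ⟨x, rfl⟩ := pj_surj p K a β
  change f (pj p K a x) = m • pj p K a x
  rw [hf, ← pj_zpow]
  congr 1
  funext i
  fin_cases i
  · change x 0 ^ α 0 0 * x 1 ^ α 0 1 = x 0 ^ m
    rw [h5, h6', h10, zpow_zero, mul_one]
  · change x 0 ^ α 1 0 * x 1 ^ α 1 1 = x 1 ^ m
    rw [h7, h10, zpow_zero, one_mul, show α 1 1 = m by omega]

variable (p K)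

theorem exists_root (x : (AlgebraicClosure K)ˣ) : ∃ y : (AlgebraicClosure K)ˣ, y ^ p = x := by
  have hp : 0 < p := (Fact.out : p.Prime).pos
  obtain ⟨z, hz⟩ := IsAlgClosed.exists_pow_nat_eq (x : AlgebraicClosure K) hp
  have h0 : z ≠ 0 := by
    rintro rfl
    rw [zero_pow hp.ne'] at hz
    exact x.ne_zero hz.symm
  exact ⟨Units.mk0 z h0, Units.ext (by rw [Units.val_pow_eq_pow_val]; exact hz)⟩

theorem exists_unity : ∃ y : (AlgebraicClosure K)ˣ, y ^ p = 1 ∧ y ≠ 1 := by
  have : CharZero (AlgebraicClosure K) :=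
    charZero_of_injective_algebraMap (R := ℚ_[p])
      (((algebraMap K (AlgebraicClosure K)).comp (algebraMap ℚ_[p] K)).injective)
  have : NeZero (p : AlgebraicClosure K) := ⟨by exact_mod_cast (Fact.out : p.Prime).ne_zero⟩
  obtain ⟨z, hz⟩ := HasEnoughRootsOfUnity.exists_primitiveRoot (AlgebraicClosure K) p
  have hp : p ≠ 0 := (Fact.out : p.Prime).ne_zero
  have h1 : IsPrimitiveRoot (hz.isUnit hp).unit p := hz.isUnit_unit hp
  exact ⟨_, h1.pow_eq_one, h1.ne_one (Fact.out : p.Prime).one_lt⟩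

/-- compatible roots of unity -/
def zet : ℕ → (AlgebraicClosure K)ˣ
  | 0 => 1
  | n + 1 => Nat.rec (Classical.choose (exists_unity p K))
      (fun _ y => Classical.choose (exists_root p K y)) n

theorem zet_zero : zet p K 0 = 1 := rfl

theorem zet_one : zet p K 1 ≠ 1 := (Classical.choose_spec (exists_unity p K)).2

theorem zet_succ (n : ℕ) : zet p K (n + 1) ^ p = zet p K n := by
  cases n with
  | zero => exact (Classical.choose_spec (exists_unity p K)).1
  | succ n => exact Classical.choose_spec (exists_root p K (zet p K (n + 1)))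

theorem zet_pow (k n : ℕ) : zet p K (n + k) ^ p ^ k = zet p K n := by
  induction k generalizing n with
  | zero => simp
  | succ k ih =>
    rw [pow_succ, pow_mul, show n + (k + 1) = (n + 1) + k by omega, ih, zet_succ]

theorem zet_order (n k : ℕ) (h : zet p K n ^ k = 1) : p ^ n ∣ k := by
  cases n with
  | zero => simp
  | succ n =>
    have h1 : orderOf (zet p K (n + 1)) = p ^ (n + 1) := by
      refine orderOf_eq_prime_pow ?_ ?_
      · rw [add_comm n 1, zet_pow]
        exact zet_one p K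
      · have h2 := zet_pow p K (n + 1) 0
        rw [zero_add] at h2
        exact h2
    rw [← h1]
    exact orderOf_dvd_of_pow_eq_one h

variable (a)

/-- First element of the Tate module. -/
def tt : Tate p (surf p K a).Pts :=
  mkT (fun n => pj p K a ![zet p K n, 1])
    (by
      have h : (![zet p K 0, 1] : Fin 2 → (AlgebraicClosure K)ˣ) = 1 := by
        funext i
        fin_cases i <;> simp [zet_zero]
      rw [h, pj_one])
    (fun n => by
      rw [← pj_pow]
      congr 1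
      funext i
      fin_cases i
      · exact zet_succ p K n
      · exact one_pow p)

/-- Second element of the Tate module. -/
def tt' : Tate p (surf p K a).Pts :=
  mkT (fun n => pj p K a ![1, zet p K n])
    (by
      have h : (![1, zet p K 0] : Fin 2 → (AlgebraicClosure K)ˣ) = 1 := by
        funext i
        fin_cases i <;> simp [zet_zero]
      rw [h, pj_one])
    (fun n => by
      rw [← pj_pow]
      congr 1
      funext i
      fin_cases i
      · exact one_pow p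
      · exact zet_succ p K n)

theorem phi_tt : phi (tt p K a) = tt' p K a := by
  refine ext_lev fun n => ?_
  refine (phi_spec (tt p K a) n).unique ?_
  refine ⟨![zet p K n, 1], 0, 0, rfl, ?_, ?_⟩
  · rw [lv_zero]
    funext i
    fin_cases i
    · change zet p K n ^ p ^ n = 1
      have h := zet_pow p K n 0
      rw [zero_add] at h
      exact h
    · exact one_pow _
  · change _ = pj p K a ![1, zet p K n]
    congr 1
    funext i
    fin_cases i
    · simp [yy, uw_zero]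
    · simp [yy, uw_zero]

theorem tt_indep {r s : ℤ_[p]} (h : s • tt' p K a = r • tt p K a) : s = 0 := by
  refine appr_zero_all fun n => zet_order p K n _ ?_
  have h1 : s.appr n • pj p K a ![1, zet p K n] = r.appr n • pj p K a ![zet p K n, 1] :=
    congrArg (fun t : Tate p (surf p K a).Pts => lev t n) h
  rw [← pj_pow, ← pj_pow] at h1
  obtain ⟨m, k, hmk⟩ := (pj_eq p K a).mp h1.symm
  have hz : zet p K n ^ p ^ n = 1 := by
    have h := zet_pow p K n 0
    rw [zero_add] at h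
    exact h
  have h3 : lv p K a (p ^ n * m) (p ^ n * k) = lv p K a 0 0 := by
    have h4 := lv_pow p K a (p ^ n) m k
    push_cast at h4
    rw [h4, ← hmk, lv_zero]
    have h5 : (![zet p K n, 1] : Fin 2 → (AlgebraicClosure K)ˣ) ^ p ^ n = 1 := by
      funext i
      fin_cases i
      · exact hz
      · exact one_pow _
    have h6 : (![1, zet p K n] : Fin 2 → (AlgebraicClosure K)ˣ) ^ p ^ n = 1 := by
      funext i
      fin_cases i
      · exact one_pow _
      · exact hz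
    rw [mul_pow, inv_pow, pow_right_comm _ (r.appr n), pow_right_comm _ (s.appr n), h5, h6,
      one_pow, one_pow, inv_one, one_mul]
  obtain ⟨h7, h8⟩ := lv_inj p K a h3
  have hp : (p : ℤ) ^ n ≠ 0 := pow_ne_zero _ (by exact_mod_cast (Fact.out : p.Prime).ne_zero)
  have hm : m = 0 := (mul_eq_zero.mp h7).resolve_left hp
  have hk : k = 0 := (mul_eq_zero.mp h8).resolve_left hp
  rw [hm, hk, lv_zero] at hmk
  have h9 := congrFun hmk 1
  have h10 : ((1 : (AlgebraicClosure K)ˣ) ^ r.appr n)⁻¹ * zet p K n ^ s.appr n = 1 := h9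
  rwa [one_pow, inv_one, one_mul] at h10

/-- The endomorphism of the rational Tate module. -/
def bigF : Module.End ℚ_[p] (surf p K a).V := (phi (p := p) (K := K) (a := a)).baseChange ℚ_[p]

theorem bigF_equivariant : (surf p K a).IsEquivariant (bigF p K a) := by
  intro σ
  change (phi (p := p) (K := K) (a := a)).baseChange ℚ_[p] ∘ₗ
    (tateMap ((surf p K a).gal σ)).baseChange ℚ_[p] =
    (tateMap ((surf p K a).gal σ)).baseChange ℚ_[p] ∘ₗ
      (phi (p := p) (K := K) (a := a)).baseChange ℚ_[p]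
  rw [← LinearMap.baseChange_comp, ← LinearMap.baseChange_comp, phi_gal]

theorem bigF_ne (c : ℚ_[p]) : bigF p K a ≠ c • 1 := by
  intro h
  have h1 := LinearMap.congr_fun h ((1 : ℚ_[p]) ⊗ₜ[ℤ_[p]] tt p K a)
  have h2 : (1 : ℚ_[p]) ⊗ₜ[ℤ_[p]] phi (tt p K a) = c • ((1 : ℚ_[p]) ⊗ₜ[ℤ_[p]] tt p K a) := h1
  rw [phi_tt] at h2
  obtain ⟨r, s, hs, h3⟩ := tate_prop h2
  exact hs (tt_indep p K a h3)

end surf

theorem main (p : ℕ) [Fact p.Prime] (K : Type) [Field K] [Algebra ℚ_[p] K] :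
    ∃ (A : TotDeg p K 2) (F : Module.End ℚ_[p] A.V), A.IsEquivariant F ∧ ¬ A.InImage F := by
  obtain ⟨a, ha⟩ := exists_irr p
  refine ⟨surf p K a, bigF p K a, bigF_equivariant p K a, fun hF => ?_⟩
  obtain ⟨c, hc⟩ := (surf p K a).inImage_scalar (end_scalar ha) _ hF
  exact bigF_ne p K a c hc

end

end Run7.h592.TT
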