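import Mathlib

/-! The powers `(1 + p) ^ z` with `p`-adic exponents, and an irrational `p`-adic integer. -/

set_option autoImplicit false

open Filter Topology

namespace Run7.h592.TT

noncomputable section

variable (p : ℕ) [Fact p.Prime]

theorem norm_p_lt : ‖(p : ℤ_[p])‖ < 1 := by
  rw [PadicInt.norm_p]
  exact inv_lt_one_of_one_lt₀ (by exact_mod_cast (Fact.out : p.Prime).one_lt)

/-- `z ↦ (1 + p) ^ z` -/
def kap : AddChar ℤ_[p] ℤ_[p] :=
  PadicInt.addChar_of_value_at_one (p : ℤ_[p])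
    (tendsto_pow_atTop_nhds_zero_iff_norm_lt_one.mpr (norm_p_lt p))

theorem kap_one : kap p 1 = 1 + p := PadicInt.addChar_of_value_at_one_def _

theorem kap_cont : Continuous (kap p) := PadicInt.continuous_addChar_of_value_at_one _

theorem kap_nsmul (n : ℕ) (z : ℤ_[p]) : kap p (n * z) = kap p z ^ n := by
  rw [← nsmul_eq_mul]
  exact AddChar.map_nsmul_eq_pow _ _ _

theorem kap_inj {z : ℤ_[p]} (h : kap p z = 1) : z = 0 := by
  by_contra hz
  have hd : ∀ x : ℤ_[p], kap p (x * z) = 1 := by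
    have h1 : (fun x : ℤ_[p] => kap p (x * z)) = fun _ => 1 := by
      refine PadicInt.denseRange_natCast.equalizer ?_ continuous_const ?_
      · exact (kap_cont p).comp (continuous_mul_const z)
      · funext n
        simp only [Function.comp_apply]
        rw [kap_nsmul, h, one_pow]
    exact fun x => congrFun h1 x
  have h2 := PadicInt.unitCoeff_spec hz
  set w := PadicInt.unitCoeff hz with hw
  set k := z.valuation with hk
  have h3 := hd (w⁻¹ : ℤ_[p]ˣ)
  have h9 : ((w⁻¹ : ℤ_[p]ˣ) : ℤ_[p]) * z = (p : ℤ_[p]) ^ k := by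
    rw [h2, ← mul_assoc, Units.inv_mul, one_mul]
  rw [h9] at h3
  have h4 : kap p ((p : ℤ_[p]) ^ k) = (1 + p) ^ (p ^ k) := by
    have h5 := kap_nsmul p (p ^ k) 1
    rw [mul_one, kap_one] at h5
    rw [← h5]
    push_cast
    rfl
  rw [h4] at h3
  have h6 : ((1 + p) ^ (p ^ k) : ℕ) = 1 := by exact_mod_cast h3
  have hp := (Fact.out : p.Prime).two_le
  have h7 : p ^ k ≠ 0 := by positivity
  have h8 := Nat.one_lt_pow h7 (show 1 < 1 + p by omega)
  omega

/-- `(1 + p) ^ z` as a unit of `ℤ_p` -/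
def kapU (z : ℤ_[p]) : ℤ_[p]ˣ where
  val := kap p z
  inv := kap p (-z)
  val_inv := by rw [← AddChar.map_add_eq_mul, add_neg_cancel, AddChar.map_zero_eq_one]
  inv_val := by rw [← AddChar.map_add_eq_mul, neg_add_cancel, AddChar.map_zero_eq_one]

theorem kapU_add (x y : ℤ_[p]) : kapU p (x + y) = kapU p x * kapU p y := by
  refine Units.ext ?_
  exact AddChar.map_add_eq_mul (kap p) x y

/-- A `p`-adic integer which is not rational: the root near `0` of `x ^ 2 - x + p`. -/
theorem exists_irr : ∃ a : ℤ_[p], ∀ r s : ℤ, (r : ℤ_[p]) + s * a = 0 → r = 0 ∧ s = 0 := by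
  obtain ⟨a, ha⟩ : ∃ a : ℤ_[p], a ^ 2 - a + p = 0 := by
    have h := hensels_lemma (p := p) (R := ℤ_[p])
      (F := (Polynomial.X ^ 2 - Polynomial.X + Polynomial.C (p : ℤ_[p]))) (a := 0) (by
        have := norm_p_lt p
        simpa using this)
    obtain ⟨z, hz, _⟩ := h
    refine ⟨z, ?_⟩
    simpa using hz
  refine ⟨a, fun r s h => ?_⟩
  have h1 : (r : ℤ_[p]) ^ 2 + r * s + p * s ^ 2 = 0 := by
    have h2 : (r : ℤ_[p]) = - (s * a) := by linear_combination h
    rw [h2]
    linear_combination (s : ℤ_[p]) ^ 2 * ha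
  have h3 : r ^ 2 + r * s + p * s ^ 2 = 0 := by exact_mod_cast h1
  have hp : (2 : ℤ) ≤ p := by exact_mod_cast (Fact.out : p.Prime).two_le
  have hs : s = 0 := by
    by_contra hs
    have h4 : 0 < s ^ 2 := by positivity
    nlinarith [sq_nonneg (2 * r + s), mul_le_mul_of_nonneg_right hp h4.le]
  subst hs
  refine ⟨?_, rfl⟩
  have : r ^ 2 = 0 := by nlinarith
  exact pow_eq_zero_iff (two_ne_zero) |>.mp this

end

end Run7.h592.TT
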