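import Pool.Agent.Run7.h592.TT.Defs
import Pool.Agent.Run7.h592.TT.End

/-!
# The p-adic Tate conjecture fails for totally degenerate abelian surfaces

Negative answer to Q1 of MP_b74fdd_ag, for every prime `p` and every finite extension `K` of `ℚ_p`.

The surface is `G_m² / Λ`, where `Λ` is generated by the rows of `[[p, u], [u, p u^a]]`,
`u = 1 + p`, and `a` is an irrational `p`-adic integer. Its endomorphisms are the integers.
The `p`-adic completion of `K*`, tensored with `ℚ_p`, contains the plane with basis `p`, `u`, and
there the period matrix is `p I + u L` with `L = [[0, 1], [1, a]]`. Hence `L` commutes with the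
Galois action on `V_p(A)`.

The definitions used in the statement are in `Run7/h592/TT/Defs.lean`.
-/

set_option autoImplicit false

namespace Pool.Agent.Run7.h592.TT.NotSurjective

open Run7.h592.TT

/-- For every prime `p` and every finite extension `K` of `ℚ_p` there are an abelian surface `A`
over `K` with split totally multiplicative reduction and a `G_K`-equivariant endomorphism `F` of
`V_p(A)` that is not in the image of `End(A) ⊗ ℚ_p`. -/
theorem result (p : ℕ) [Fact p.Prime] (K : Type) [Field K] [Algebra ℚ_[p] K]
    [FiniteDimensional ℚ_[p] K] :
    ∃ (A : TotDeg p K 2) (F : Module.End ℚ_[p] A.V), A.IsEquivariant F ∧ ¬ A.InImage F :=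
  Run7.h592.TT.main p K

end Pool.Agent.Run7.h592.TT.NotSurjective
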