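import Pool.Agent.Run7.h592.TT.Surf

/-! An endomorphism of the Tate module of the surface which commutes with the Galois group. -/

set_option autoImplicit false

namespace Run7.h592.TT

noncomputable section


variable (p : ℕ) [Fact p.Prime] (K : Type) [Field K] [Algebra ℚ_[p] K] (a : ℤ_[p])

theorem exists_dd (n : ℕ) : ∃ d : ℤ_[p], a = a.appr n + p ^ n * d := by
  have h := PadicInt.appr_spec n a
  rw [Ideal.mem_span_singleton] at h
  obtain ⟨d, hd⟩ := h
  exact ⟨d, by rw [← hd]; ring⟩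

/-- `(a - a_n) / p ^ n` -/
def dd (n : ℕ) : ℤ_[p] := Classical.choose (exists_dd p a n)

theorem dd_spec (n : ℕ) : a = a.appr n + p ^ n * dd p a n := Classical.choose_spec (exists_dd p a n)

theorem exists_cc (n : ℕ) : ∃ c : ℕ, a.appr (n + 1) = a.appr n + p ^ n * c ∧
    dd p a n = c + p * dd p a (n + 1) := by
  have h1 : a.appr n ≤ a.appr (n + 1) := PadicInt.appr_mono a (Nat.le_succ n)
  have h2 : p ^ n ∣ a.appr (n + 1) - a.appr n :=
    (Nat.modEq_iff_dvd' h1).mp (appr_succ_modEq a n).symm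
  obtain ⟨c, hc⟩ := h2
  have h3 : a.appr (n + 1) = a.appr n + p ^ n * c := by omega
  refine ⟨c, h3, ?_⟩
  have h4 := dd_spec p a n
  have h5 := dd_spec p a (n + 1)
  have h6 : ((a.appr (n + 1) : ℕ) : ℤ_[p]) = a.appr n + p ^ n * c := by exact_mod_cast h3
  have hp : (p : ℤ_[p]) ^ n ≠ 0 := pow_ne_zero _ (by exact_mod_cast (Fact.out : p.Prime).ne_zero)
  refine mul_left_cancel₀ hp ?_
  rw [h6] at h5
  linear_combination h5 - h4

/-- The image vector. -/
def yy (n : ℕ) (x : Fin 2 → (AlgebraicClosure K)ˣ) (m₁ m₂ : ℤ) : Fin 2 → (AlgebraicClosure K)ˣ :=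
  ![x 1 * uw p K (-(dd p a n * m₂)), x 0 * x 1 ^ a.appr n * uw p K (dd p a n * m₁)]

theorem yy_mul (n : ℕ) (x x' : Fin 2 → (AlgebraicClosure K)ˣ) (m₁ m₂ m₁' m₂' : ℤ) :
    yy p K a n (x * x') (m₁ + m₁') (m₂ + m₂') = yy p K a n x m₁ m₂ * yy p K a n x' m₁' m₂' := by
  funext k
  fin_cases k
  · change (x 1 * x' 1) * uw p K (-(dd p a n * ((m₂ + m₂' : ℤ) : ℤ_[p]))) =
      (x 1 * uw p K (-(dd p a n * m₂))) * (x' 1 * uw p K (-(dd p a n * m₂')))
    rw [show -(dd p a n * ((m₂ + m₂' : ℤ) : ℤ_[p])) = -(dd p a n * m₂) + -(dd p a n * m₂') by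
      push_cast; ring, uw_add]
    exact mul_mul_mul_comm _ _ _ _
  · change (x 0 * x' 0) * (x 1 * x' 1) ^ a.appr n * uw p K (dd p a n * ((m₁ + m₁' : ℤ) : ℤ_[p])) =
      (x 0 * x 1 ^ a.appr n * uw p K (dd p a n * m₁)) *
        (x' 0 * x' 1 ^ a.appr n * uw p K (dd p a n * m₁'))
    rw [show (dd p a n * ((m₁ + m₁' : ℤ) : ℤ_[p])) = (dd p a n * m₁) + (dd p a n * m₁') by
      push_cast; ring, uw_add, mul_pow, mul_mul_mul_comm (x 0)]
    exact mul_mul_mul_comm _ _ _ _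

theorem yy_one (n : ℕ) : yy p K a n 1 0 0 = 1 := by
  funext k
  fin_cases k
  · simp [yy, uw_zero]
  · simp [yy, uw_zero]

theorem yy_pow (n k : ℕ) (x : Fin 2 → (AlgebraicClosure K)ˣ) (m₁ m₂ : ℤ) :
    yy p K a n (x ^ k) (k * m₁) (k * m₂) = yy p K a n x m₁ m₂ ^ k := by
  induction k with
  | zero => simp [yy_one]
  | succ k ih =>
    rw [pow_succ, pow_succ, ← ih, ← yy_mul]
    congr 1 <;> (push_cast; ring)

theorem yy_lv (n : ℕ) (k₁ k₂ : ℤ) : yy p K a n (lv p K a k₁ k₂) (p ^ n * k₁) (p ^ n * k₂) =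
    lv p K a k₂ (k₁ + a.appr n * k₂) := by
  have hd := dd_spec p a n
  funext k
  fin_cases k
  · change pw p K ^ k₂ * uw p K (k₁ + a * k₂) * uw p K (-(dd p a n * ((p ^ n * k₂ : ℤ) : ℤ_[p]))) =
      pw p K ^ k₂ * uw p K ((k₁ + a.appr n * k₂ : ℤ) : ℤ_[p])
    rw [mul_assoc, ← uw_add]
    congr 2
    push_cast
    linear_combination (k₂ : ℤ_[p]) * hd
  · change (pw p K ^ k₁ * uw p K k₂) * (pw p K ^ k₂ * uw p K (k₁ + a * k₂)) ^ a.appr n *
      uw p K (dd p a n * ((p ^ n * k₁ : ℤ) : ℤ_[p])) =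
      pw p K ^ (k₁ + a.appr n * k₂) * uw p K (k₂ + a * ((k₁ + a.appr n * k₂ : ℤ) : ℤ_[p]))
    rw [mul_pow, ← uw_nat, ← zpow_natCast, ← zpow_mul, mul_mul_mul_comm, ← zpow_add, ← uw_add,
      mul_assoc, ← uw_add, mul_comm k₂ (a.appr n : ℤ)]
    congr 2
    push_cast
    linear_combination (- (k₁ : ℤ_[p])) * hd

/-- `φ` at level `n`, as a relation. -/
def Rel (n : ℕ) (α β : (surf p K a).Pts) : Prop :=
  ∃ (x : Fin 2 → (AlgebraicClosure K)ˣ) (m₁ m₂ : ℤ), pj p K a x = α ∧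
    x ^ (p ^ n) = lv p K a m₁ m₂ ∧ pj p K a (yy p K a n x m₁ m₂) = β

variable {p K a}

theorem Rel.unique {n : ℕ} {α β β' : (surf p K a).Pts} (h : Rel p K a n α β)
    (h' : Rel p K a n α β') : β = β' := by
  obtain ⟨x, m₁, m₂, rfl, hx, rfl⟩ := h
  obtain ⟨x', m₁', m₂', hx1, hx', rfl⟩ := h'
  obtain ⟨k₁, k₂, hk⟩ := (pj_eq p K a).mp hx1.symm
  have h1 : x' = x * lv p K a k₁ k₂ := by
    rw [← hk, mul_inv_cancel_left]
  have h2 : lv p K a m₁' m₂' = lv p K a (m₁ + p ^ n * k₁) (m₂ + p ^ n * k₂) := by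
    rw [← hx', h1, mul_pow, hx, ← lv_pow, ← lv_add]
    push_cast
    rfl
  obtain ⟨h3, h4⟩ := lv_inj p K a h2
  rw [h3, h4, h1, yy_mul, yy_lv, pj_mul, pj_lv, add_zero]

theorem Rel.total {n : ℕ} {α : (surf p K a).Pts} (h : p ^ n • α = 0) : ∃ β, Rel p K a n α β := by
  obtain ⟨x, rfl⟩ := pj_surj p K a α
  rw [← pj_pow] at h
  obtain ⟨m₁, m₂, hm⟩ := (pj_eq_zero p K a).mp h
  exact ⟨_, x, m₁, m₂, rfl, hm, rfl⟩

theorem Rel.add {n : ℕ} {α β α' β' : (surf p K a).Pts} (h : Rel p K a n α β)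
    (h' : Rel p K a n α' β') : Rel p K a n (α + α') (β + β') := by
  obtain ⟨x, m₁, m₂, rfl, hx, rfl⟩ := h
  obtain ⟨x', m₁', m₂', rfl, hx', rfl⟩ := h'
  refine ⟨x * x', m₁ + m₁', m₂ + m₂', pj_mul p K a _ _, ?_, ?_⟩
  · rw [mul_pow, hx, hx', lv_add]
  · rw [yy_mul, pj_mul]

theorem Rel.zero (n : ℕ) : Rel p K a n 0 0 :=
  ⟨1, 0, 0, pj_one p K a, by rw [one_pow, lv_zero], by rw [yy_one, pj_one]⟩

theorem Rel.nsmul {n : ℕ} {α β : (surf p K a).Pts} (h : Rel p K a n α β) (k : ℕ) :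
    Rel p K a n (k • α) (k • β) := by
  induction k with
  | zero =>
    rw [zero_smul, zero_smul]
    exact Rel.zero n
  | succ k ih =>
    rw [succ_nsmul, succ_nsmul]
    exact ih.add h

theorem Rel.succ {n : ℕ} {α β : (surf p K a).Pts} (h : Rel p K a (n + 1) α β) :
    Rel p K a n (p • α) (p • β) := by
  obtain ⟨x, m₁, m₂, rfl, hx, rfl⟩ := h
  refine ⟨x ^ p, m₁, m₂, pj_pow p K a _ _, ?_, ?_⟩
  · rw [← hx, ← pow_mul, pow_succ, mul_comm]
  · obtain ⟨c, hc, hd⟩ := exists_cc p a n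
    have h1 : yy p K a (n + 1) x m₁ m₂ ^ p =
        yy p K a n (x ^ p) m₁ m₂ * lv p K a 0 (c * m₂) := by
      funext k
      fin_cases k
      · change (x 1 * uw p K (-(dd p a (n + 1) * m₂))) ^ p =
          (x 1 ^ p * uw p K (-(dd p a n * m₂))) * (pw p K ^ (0 : ℤ) * uw p K ((c * m₂ : ℤ) : ℤ_[p]))
        rw [mul_pow, ← uw_nat, zpow_zero, one_mul, mul_assoc, ← uw_add]
        congr 2
        rw [hd]
        push_cast
        ring
      · have h2 : x 1 ^ (p ^ (n + 1)) = pw p K ^ m₂ * uw p K (m₁ + a * m₂) := congrFun hx 1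
        change (x 0 * x 1 ^ a.appr (n + 1) * uw p K (dd p a (n + 1) * m₁)) ^ p =
          (x 0 ^ p * (x 1 ^ p) ^ a.appr n * uw p K (dd p a n * m₁)) *
            (pw p K ^ (c * m₂) * uw p K ((0 : ℤ) + a * ((c * m₂ : ℤ) : ℤ_[p])))
        have h3 : (x 1 ^ a.appr (n + 1)) ^ p = (x 1 ^ p) ^ a.appr n *
            (pw p K ^ (c * m₂) * uw p K (c * (m₁ + a * m₂))) := by
          rw [hc, ← pow_mul, add_mul, pow_add, ← pow_mul, mul_comm p, uw_nat, mul_comm (c : ℤ),
            zpow_mul, zpow_natCast, ← mul_pow, ← h2, ← pow_mul]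
          congr 2
          ring
        rw [mul_pow, mul_pow, h3, ← uw_nat]
        have h4 : uw p K (c * (m₁ + a * m₂)) * uw p K (p * (dd p a (n + 1) * m₁)) =
            uw p K (dd p a n * m₁) * uw p K ((0 : ℤ) + a * ((c * m₂ : ℤ) : ℤ_[p])) := by
          rw [← uw_add, ← uw_add]
          congr 1
          rw [hd]
          push_cast
          ring
        generalize uw p K (c * (m₁ + a * m₂)) = u1 at *
        generalize uw p K (p * (dd p a (n + 1) * m₁)) = u2 at *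
        generalize uw p K (dd p a n * m₁) = u3 at *
        generalize uw p K ((0 : ℤ) + a * ((c * m₂ : ℤ) : ℤ_[p])) = u4 at *
        generalize pw p K ^ (c * m₂) = w1
        generalize (x 1 ^ p) ^ a.appr n = w2
        generalize x 0 ^ p = w3
        calc w3 * (w2 * (w1 * u1)) * u2 = w3 * w2 * w1 * (u1 * u2) := by
              simp only [mul_assoc]
          _ = w3 * w2 * w1 * (u3 * u4) := by rw [h4]
          _ = w3 * w2 * u3 * (w1 * u4) := mul_mul_mul_comm _ _ _ _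
    have h2 := congrArg (pj p K a) h1
    rw [pj_pow, pj_mul, pj_lv, add_zero] at h2
    exact h2.symm

theorem gal_uw (σ : AlgebraicClosure K ≃ₐ[K] AlgebraicClosure K) (y : ℚ_[p]ˣ) :
    Units.map σ.toMonoidHom (toKb p K y) = toKb p K y := by
  ext
  exact σ.commutes _

theorem Rel.gal {n : ℕ} {α β : (surf p K a).Pts} (h : Rel p K a n α β)
    (σ : AlgebraicClosure K ≃ₐ[K] AlgebraicClosure K) :
    Rel p K a n ((surf p K a).gal σ α) ((surf p K a).gal σ β) := by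
  obtain ⟨x, m₁, m₂, rfl, hx, rfl⟩ := h
  have hp : Units.map σ.toMonoidHom (pw p K) = pw p K := gal_uw σ _
  have hu : ∀ z, Units.map σ.toMonoidHom (uw p K z) = uw p K z := fun z => gal_uw σ _
  refine ⟨gx K σ x, m₁, m₂, (gal_pj p K a σ x).symm, ?_, ?_⟩
  · rw [← gx_pow, hx]
    funext k
    fin_cases k
    · change Units.map σ.toMonoidHom (pw p K ^ m₁ * uw p K m₂) = pw p K ^ m₁ * uw p K m₂
      rw [map_mul, map_zpow, hp, hu]
    · change Units.map σ.toMonoidHom (pw p K ^ m₂ * uw p K (m₁ + a * m₂)) =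
        pw p K ^ m₂ * uw p K (m₁ + a * m₂)
      rw [map_mul, map_zpow, hp, hu]
  · rw [gal_pj]
    congr 1
    funext k
    fin_cases k
    · change Units.map σ.toMonoidHom (x 1) * uw p K _ = Units.map σ.toMonoidHom (x 1 * uw p K _)
      rw [map_mul, hu]
    · change Units.map σ.toMonoidHom (x 0) * Units.map σ.toMonoidHom (x 1) ^ a.appr n * uw p K _ =
        Units.map σ.toMonoidHom (x 0 * x 1 ^ a.appr n * uw p K _)
      rw [map_mul, map_mul, map_pow, hu]

/-- The image of an element of the Tate module, level by level. -/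
def phiLev (t : Tate p (surf p K a).Pts) (n : ℕ) : (surf p K a).Pts :=
  Classical.choose (Rel.total (pow_smul_zero t n))

theorem phiLev_spec (t : Tate p (surf p K a).Pts) (n : ℕ) :
    Rel p K a n (lev t n) (phiLev t n) :=
  Classical.choose_spec (Rel.total (pow_smul_zero t n))

/-- The endomorphism of the Tate module. -/
def phi : Tate p (surf p K a).Pts →ₗ[ℤ_[p]] Tate p (surf p K a).Pts where
  toFun t := mkT (phiLev t)
    (by
      refine Rel.unique (phiLev_spec t 0) ?_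
      rw [lev_first]
      exact Rel.zero 0)
    (fun n => by
      have h2 := (phiLev_spec t (n + 1)).succ
      rw [lev_next] at h2
      exact h2.unique (phiLev_spec t n))
  map_add' t t' := ext_lev fun n =>
    (phiLev_spec (t + t') n).unique ((phiLev_spec t n).add (phiLev_spec t' n))
  map_smul' z t := ext_lev fun n =>
    (phiLev_spec (z • t) n).unique ((phiLev_spec t n).nsmul (z.appr n))

theorem phi_spec (t : Tate p (surf p K a).Pts) (n : ℕ) :
    Rel p K a n (lev t n) (lev (phi t) n) :=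
  phiLev_spec t n

theorem phi_gal (σ : AlgebraicClosure K ≃ₐ[K] AlgebraicClosure K) :
    phi ∘ₗ tateMap ((surf p K a).gal σ) = tateMap ((surf p K a).gal σ) ∘ₗ phi := by
  refine LinearMap.ext fun t => ext_lev fun n => ?_
  exact (phi_spec (tateMap ((surf p K a).gal σ) t) n).unique ((phi_spec t n).gal σ)

end

end Run7.h592.TT
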