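import Pool.Agent.Run7.h592.TT.Defs
import Pool.Agent.Run7.h592.TT.Kap

/-! The abelian surface with the period matrix `[[p, u], [u, p u^a]]`, `u = 1 + p`. -/

set_option autoImplicit false

namespace Run7.h592.TT

noncomputable section

variable (p : ℕ) [Fact p.Prime] (K : Type) [Field K] [Algebra ℚ_[p] K]

/-- `p` as a unit of `ℚ_p` -/
def pq : ℚ_[p]ˣ := Units.mk0 (p : ℚ_[p]) (by exact_mod_cast (Fact.out : p.Prime).ne_zero)

/-- `(1 + p) ^ z` as a unit of `ℚ_p` -/
def uq (z : ℤ_[p]) : ℚ_[p]ˣ := Units.map (algebraMap ℤ_[p] ℚ_[p]) (kapU p z)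

theorem uq_add (x y : ℤ_[p]) : uq p (x + y) = uq p x * uq p y := by
  rw [uq, kapU_add, map_mul]
  rfl

theorem norm_uq (z : ℤ_[p]) : ‖(uq p z : ℚ_[p])‖ = 1 := by
  have h : ‖(kapU p z : ℤ_[p])‖ = 1 := PadicInt.isUnit_iff.mp (kapU p z).isUnit
  exact h

theorem norm_pq_uq (i : ℤ) (z : ℤ_[p]) :
    ‖((pq p ^ i * uq p z : ℚ_[p]ˣ) : ℚ_[p])‖ = (p : ℝ) ^ (-i) := by
  rw [Units.val_mul, norm_mul, norm_uq, mul_one, Units.val_zpow_eq_zpow_val]
  change ‖(p : ℚ_[p]) ^ i‖ = _
  rw [Padic.norm_p_zpow]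

theorem pq_uq_one {i : ℤ} {z : ℤ_[p]} (h : pq p ^ i * uq p z = 1) : i = 0 ∧ z = 0 := by
  have h1 := norm_pq_uq p i z
  rw [h, Units.val_one, norm_one] at h1
  have hp : (1 : ℝ) < p := by exact_mod_cast (Fact.out : p.Prime).one_lt
  have h2 : i = 0 := by
    have h3 : (p : ℝ) ^ (-i) = (p : ℝ) ^ (0 : ℤ) := by rw [← h1, zpow_zero]
    have h4 := zpow_right_injective₀ (by linarith) (ne_of_gt hp) h3
    omega
  subst h2
  refine ⟨rfl, kap_inj p ?_⟩
  rw [zpow_zero, one_mul] at h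
  have h5 : ((uq p z : ℚ_[p]ˣ) : ℚ_[p]) = 1 := by rw [h, Units.val_one]
  have h6 : algebraMap ℤ_[p] ℚ_[p] (kap p z) = algebraMap ℤ_[p] ℚ_[p] 1 := by
    rw [map_one]
    exact h5
  exact FaithfulSMul.algebraMap_injective ℤ_[p] ℚ_[p] h6

/-- units of `ℚ_p` as units of `K` -/
def toK : ℚ_[p]ˣ →* Kˣ := Units.map (algebraMap ℚ_[p] K)

/-- units of `ℚ_p` as units of the algebraic closure of `K` -/
def toKb : ℚ_[p]ˣ →* (AlgebraicClosure K)ˣ :=
  (Units.map (algebraMap K (AlgebraicClosure K)).toMonoidHom).comp (toK p K)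

theorem toKb_inj : Function.Injective (toKb p K) := by
  intro x y h
  have h1 : ((toKb p K x : (AlgebraicClosure K)ˣ) : AlgebraicClosure K) = toKb p K y := by rw [h]
  have h2 : algebraMap K (AlgebraicClosure K) (algebraMap ℚ_[p] K x) =
    algebraMap K (AlgebraicClosure K) (algebraMap ℚ_[p] K y) := h1
  exact Units.ext ((algebraMap ℚ_[p] K).injective ((algebraMap K (AlgebraicClosure K)).injective h2))

/-- `p` as a unit of the algebraic closure of `K` -/
def pw : (AlgebraicClosure K)ˣ := toKb p K (pq p)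

/-- `(1 + p) ^ z` as a unit of the algebraic closure of `K` -/
def uw (z : ℤ_[p]) : (AlgebraicClosure K)ˣ := toKb p K (uq p z)

theorem uw_add (x y : ℤ_[p]) : uw p K (x + y) = uw p K x * uw p K y := by
  rw [uw, uq_add, map_mul]
  rfl

theorem uw_zero : uw p K 0 = 1 := by
  have h := uw_add p K 0 0
  rw [add_zero] at h
  exact (mul_eq_left.mp h.symm)

theorem uw_neg (x : ℤ_[p]) : uw p K (-x) = (uw p K x)⁻¹ := by
  refine eq_inv_of_mul_eq_one_left ?_
  rw [← uw_add, neg_add_cancel, uw_zero]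

theorem uw_nat (n : ℕ) (x : ℤ_[p]) : uw p K (n * x) = uw p K x ^ n := by
  induction n with
  | zero => rw [Nat.cast_zero, zero_mul, uw_zero, pow_zero]
  | succ n ih => rw [Nat.cast_succ, add_mul, one_mul, uw_add, ih, pow_succ]

theorem uw_int (n : ℤ) (x : ℤ_[p]) : uw p K (n * x) = uw p K x ^ n := by
  obtain ⟨k, rfl | rfl⟩ := n.eq_nat_or_neg
  · rw [zpow_natCast, Int.cast_natCast, uw_nat]
  · rw [Int.cast_neg, Int.cast_natCast, neg_mul, uw_neg, uw_nat, zpow_neg, zpow_natCast]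

theorem pw_uw_inj {i j : ℤ} {z w : ℤ_[p]} (h : pw p K ^ i * uw p K z = pw p K ^ j * uw p K w) :
    i = j ∧ z = w := by
  have h1 : pw p K ^ (i - j) * uw p K (z - w) = 1 := by
    rw [zpow_sub, sub_eq_add_neg, uw_add, uw_neg]
    calc pw p K ^ i * (pw p K ^ j)⁻¹ * (uw p K z * (uw p K w)⁻¹)
        = (pw p K ^ i * uw p K z) * (pw p K ^ j * uw p K w)⁻¹ := by
          rw [mul_inv]
          exact mul_mul_mul_comm _ _ _ _
      _ = 1 := by rw [h, mul_inv_cancel]
  have h2 : toKb p K (pq p ^ (i - j) * uq p (z - w)) = toKb p K 1 := by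
    rw [map_mul, map_zpow, map_one]
    exact h1
  obtain ⟨h3, h4⟩ := pq_uq_one p (toKb_inj p K h2)
  exact ⟨by omega, sub_eq_zero.mp h4⟩

variable (a : ℤ_[p])

/-- The surface. -/
def surf : TotDeg p K 2 where
  q := ![![toK p K (pq p), toK p K (uq p 1)], ![toK p K (uq p 1), toK p K (pq p * uq p a)]]
  pol := 1
  symm := by
    intro i j
    fin_cases i <;> fin_cases j <;> simp [Matrix.one_apply]
  pos := by
    intro m hm
    have h1 : (∏ i, ∏ j, ∏ k, (![![toK p K (pq p), toK p K (uq p 1)],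
        ![toK p K (uq p 1), toK p K (pq p * uq p a)]] : Fin 2 → Fin 2 → Kˣ) i k ^
          ((1 : Matrix (Fin 2) (Fin 2) ℤ) k j * m i * m j)) =
        toK p K (pq p ^ (m 0 * m 0 + m 1 * m 1) *
          ((uq p 1) ^ (m 0 * m 1 + m 1 * m 0) * (uq p a) ^ (m 1 * m 1))) := by
      simp only [Fin.prod_univ_two, Matrix.one_apply, map_mul, map_zpow, zpow_add]
      simp
      group
      rw [mul_zpow, zpow_add]
      generalize toK p K (pq p) ^ m 0 ^ 2 = x1
      generalize toK p K (pq p) ^ m 1 ^ 2 = x2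
      generalize toK p K (uq p 1) ^ (m 0 * m 1 * 2) = x3
      generalize toK p K (uq p a) ^ m 1 ^ 2 = x4
      rw [← mul_assoc, mul_assoc x1 x3 x2, mul_comm x3 x2, ← mul_assoc x1]
    rw [h1]
    change spectralNorm ℚ_[p] K (algebraMap ℚ_[p] K _) < 1
    rw [spectralNorm_extends]
    have h2 : ∀ (z : ℤ_[p]) (k : ℤ), ‖((uq p z ^ k : ℚ_[p]ˣ) : ℚ_[p])‖ = 1 := by
      intro z k
      rw [Units.val_zpow_eq_zpow_val, norm_zpow, norm_uq, one_zpow]
    rw [Units.val_mul, norm_mul, Units.val_mul, norm_mul, h2, h2, mul_one, mul_one,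
      Units.val_zpow_eq_zpow_val]
    change ‖(p : ℚ_[p]) ^ _‖ < 1
    rw [Padic.norm_p_zpow]
    have hp : (1 : ℝ) < p := by exact_mod_cast (Fact.out : p.Prime).one_lt
    refine zpow_lt_one_of_neg₀ hp ?_
    have h3 : m 0 ≠ 0 ∨ m 1 ≠ 0 := by
      by_contra h
      push Not at h
      refine hm (funext fun i => ?_)
      fin_cases i
      · exact h.1
      · exact h.2
    rcases h3 with h3 | h3
    · have := mul_self_pos.mpr h3
      nlinarith [mul_self_nonneg (m 1)]
    · have := mul_self_pos.mpr h3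
      nlinarith [mul_self_nonneg (m 0)]

/-- The lattice vectors. -/
def lv (m n : ℤ) : Fin 2 → (AlgebraicClosure K)ˣ :=
  ![pw p K ^ m * uw p K n, pw p K ^ n * uw p K (m + a * n)]

theorem lv_add (m n m' n' : ℤ) : lv p K a (m + m') (n + n') = lv p K a m n * lv p K a m' n' := by
  funext k
  fin_cases k
  · change pw p K ^ (m + m') * uw p K ((n + n' : ℤ) : ℤ_[p]) =
      (pw p K ^ m * uw p K n) * (pw p K ^ m' * uw p K n')
    rw [Int.cast_add, uw_add, zpow_add]
    exact mul_mul_mul_comm _ _ _ _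
  · change pw p K ^ (n + n') * uw p K (((m + m' : ℤ) : ℤ_[p]) + a * ((n + n' : ℤ) : ℤ_[p])) =
      (pw p K ^ n * uw p K (m + a * n)) * (pw p K ^ n' * uw p K (m' + a * n'))
    have h : (((m + m' : ℤ) : ℤ_[p]) + a * ((n + n' : ℤ) : ℤ_[p])) =
        (m + a * n) + (m' + a * n') := by
      push_cast
      ring
    rw [h, uw_add, zpow_add]
    exact mul_mul_mul_comm _ _ _ _

theorem lv_zero : lv p K a 0 0 = 1 := by
  have h := lv_add p K a 0 0 0 0
  rw [add_zero] at h
  exact mul_eq_left.mp h.symm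

theorem lv_neg (m n : ℤ) : lv p K a (-m) (-n) = (lv p K a m n)⁻¹ := by
  refine eq_inv_of_mul_eq_one_left ?_
  rw [← lv_add, neg_add_cancel, neg_add_cancel, lv_zero]

theorem lv_pow (k : ℕ) (m n : ℤ) : lv p K a (k * m) (k * n) = lv p K a m n ^ k := by
  induction k with
  | zero => simp [lv_zero]
  | succ k ih =>
    rw [pow_succ, ← ih, ← lv_add]
    congr 1 <;> (push_cast; ring)

theorem lv_inj {m n m' n' : ℤ} (h : lv p K a m n = lv p K a m' n') : m = m' ∧ n = n' := by
  have h0 := congrFun h 0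
  have h1 : pw p K ^ m * uw p K n = pw p K ^ m' * uw p K n' := h0
  obtain ⟨h2, h3⟩ := pw_uw_inj p K h1
  exact ⟨h2, by exact_mod_cast h3⟩

/-- The points of the torus, in multiplicative notation. -/
def tor (x : Fin 2 → (AlgebraicClosure K)ˣ) : (surf p K a).Torus :=
  (fun k => Additive.ofMul (x k) : Fin 2 → Additive (AlgebraicClosure K)ˣ)

theorem tor_mul (x y : Fin 2 → (AlgebraicClosure K)ˣ) :
    tor p K a (x * y) = tor p K a x + tor p K a y := rfl

theorem tor_one : tor p K a 1 = 0 := rfl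

theorem tor_inv (x : Fin 2 → (AlgebraicClosure K)ˣ) : tor p K a x⁻¹ = - tor p K a x := rfl

theorem tor_zpow (x : Fin 2 → (AlgebraicClosure K)ˣ) (n : ℤ) :
    tor p K a (x ^ n) = n • tor p K a x := rfl

theorem tor_inj {x y : Fin 2 → (AlgebraicClosure K)ˣ} (h : tor p K a x = tor p K a y) : x = y := h

theorem tor_surj (y : (surf p K a).Torus) : ∃ x, tor p K a x = y :=
  ⟨fun k => Additive.toMul ((show Fin 2 → Additive (AlgebraicClosure K)ˣ from y) k), rfl⟩

theorem lat_row0 : (surf p K a).row 0 = tor p K a ![pw p K, uw p K 1] := by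
  refine funext fun k => ?_
  fin_cases k <;> rfl

theorem lat_row1 : (surf p K a).row 1 = tor p K a ![uw p K 1, pw p K * uw p K a] := by
  refine funext fun k => ?_
  fin_cases k
  · rfl
  · change Additive.ofMul (toKb p K (pq p * uq p a)) = _
    rw [map_mul]
    rfl

theorem mem_lat {x : Fin 2 → (AlgebraicClosure K)ˣ} :
    tor p K a x ∈ (surf p K a).lattice ↔ ∃ m n : ℤ, x = lv p K a m n := by
  constructor
  · intro hx
    have key : ∃ m n : ℤ, tor p K a x = tor p K a (lv p K a m n) := by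
      refine AddSubgroup.closure_induction
        (p := fun y _ => ∃ m n : ℤ, y = tor p K a (lv p K a m n)) ?_ ?_ ?_ ?_ hx
      · rintro _ ⟨i, rfl⟩
        fin_cases i
        · refine ⟨1, 0, ?_⟩
          refine (lat_row0 p K a).trans ?_
          congr 1
          funext k
          fin_cases k
          · simp [lv, uw_zero]
          · simp [lv]
        · refine ⟨0, 1, ?_⟩
          refine (lat_row1 p K a).trans ?_
          congr 1
          funext k
          fin_cases k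
          · simp [lv]
          · simp [lv]
      · exact ⟨0, 0, by rw [lv_zero, tor_one]⟩
      · rintro _ _ _ _ ⟨m, n, rfl⟩ ⟨m', n', rfl⟩
        exact ⟨m + m', n + n', by rw [lv_add, tor_mul]⟩
      · rintro _ _ ⟨m, n, rfl⟩
        exact ⟨-m, -n, by rw [lv_neg, tor_inv]⟩
    obtain ⟨m, n, h⟩ := key
    exact ⟨m, n, tor_inj p K a h⟩
  · rintro ⟨m, n, rfl⟩
    have h0 : tor p K a ![pw p K, uw p K 1] ∈ (surf p K a).lattice :=
      AddSubgroup.subset_closure ⟨0, lat_row0 p K a⟩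
    have h1 : tor p K a ![uw p K 1, pw p K * uw p K a] ∈ (surf p K a).lattice :=
      AddSubgroup.subset_closure ⟨1, lat_row1 p K a⟩
    have h2 : lv p K a m n = ![pw p K, uw p K 1] ^ m * ![uw p K 1, pw p K * uw p K a] ^ n := by
      funext k
      fin_cases k
      · change pw p K ^ m * uw p K n = pw p K ^ m * uw p K 1 ^ n
        rw [← uw_int, mul_one]
      · change pw p K ^ n * uw p K (m + a * n) = uw p K 1 ^ m * (pw p K * uw p K a) ^ n
        rw [mul_zpow, uw_add, ← uw_int, mul_one, mul_comm a, uw_int]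
        exact mul_left_comm _ _ _
    rw [h2, tor_mul, tor_zpow, tor_zpow]
    exact add_mem (zsmul_mem h0 m) (zsmul_mem h1 n)

/-- The projection to the points of the surface, in multiplicative notation. -/
def pj (x : Fin 2 → (AlgebraicClosure K)ˣ) : (surf p K a).Pts := (surf p K a).proj (tor p K a x)

theorem pj_mul (x y : Fin 2 → (AlgebraicClosure K)ˣ) :
    pj p K a (x * y) = pj p K a x + pj p K a y := rfl

theorem pj_one : pj p K a 1 = 0 := rfl

theorem pj_pow (x : Fin 2 → (AlgebraicClosure K)ˣ) (n : ℕ) :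
    pj p K a (x ^ n) = n • pj p K a x := rfl

theorem pj_zpow (x : Fin 2 → (AlgebraicClosure K)ˣ) (n : ℤ) :
    pj p K a (x ^ n) = n • pj p K a x := rfl

theorem proj_surj (α : (surf p K a).Pts) : ∃ y, (surf p K a).proj y = α :=
  QuotientAddGroup.mk_surjective (α : (surf p K a).Torus ⧸ (surf p K a).lattice)

theorem pj_surj (α : (surf p K a).Pts) : ∃ x, pj p K a x = α := by
  obtain ⟨y, rfl⟩ := proj_surj p K a α
  obtain ⟨x, rfl⟩ := tor_surj p K a y
  exact ⟨x, rfl⟩

theorem pj_eq {x y : Fin 2 → (AlgebraicClosure K)ˣ} :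
    pj p K a x = pj p K a y ↔ ∃ m n : ℤ, x⁻¹ * y = lv p K a m n := by
  rw [← mem_lat]
  exact QuotientAddGroup.eq

theorem pj_eq_zero {x : Fin 2 → (AlgebraicClosure K)ˣ} :
    pj p K a x = 0 ↔ ∃ m n : ℤ, x = lv p K a m n := by
  rw [← mem_lat]
  exact QuotientAddGroup.eq_zero_iff _

theorem pj_lv (m n : ℤ) : pj p K a (lv p K a m n) = 0 := (pj_eq_zero p K a).mpr ⟨m, n, rfl⟩

/-- The Galois action on the torus, in multiplicative notation. -/
def gx (σ : AlgebraicClosure K ≃ₐ[K] AlgebraicClosure K) (x : Fin 2 → (AlgebraicClosure K)ˣ) :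
    Fin 2 → (AlgebraicClosure K)ˣ := fun i => Units.map σ.toMonoidHom (x i)

theorem gx_pow (σ : AlgebraicClosure K ≃ₐ[K] AlgebraicClosure K)
    (x : Fin 2 → (AlgebraicClosure K)ˣ) (n : ℕ) : gx K σ (x ^ n) = gx K σ x ^ n := by
  funext i
  exact map_pow _ _ _

theorem gal_pj (σ : AlgebraicClosure K ≃ₐ[K] AlgebraicClosure K)
    (x : Fin 2 → (AlgebraicClosure K)ˣ) :
    (surf p K a).gal σ (pj p K a x) = pj p K a (gx K σ x) := rfl

end

end Run7.h592.TT
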